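import Mathlib
import Pool.Agent.H695R3.AT.Prob

set_option autoImplicit false

open MeasureTheory ProbabilityTheory Filter Topology ENNReal

namespace Pool.Agent.Y509.AT

open Pool.Agent.H695R3.AT

variable {s : ℕ → ℕ}

/-- shell average of a function of the potential -/
noncomputable def avg (s : ℕ → ℕ) (w : ℝ → ℝ) (n : ℕ) (v : Vtx s → ℝ) : ℝ :=
  (1 / s n : ℝ) * ∑ i : Fin (s n), w (v ⟨n, i⟩)

lemma avg_meas {w : ℝ → ℝ} (hw : Measurable w) (n : ℕ) : Measurable (avg s w n) := by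
  unfold avg
  refine Measurable.const_mul (Finset.measurable_sum _ fun i _ => ?_) _
  exact hw.comp (measurable_pi_apply _)

/-- The mean deviation of a shell average. -/
lemma l1_bound {Pv : Measure ℝ} [IsProbabilityMeasure Pv] {w : ℝ → ℝ} (hw : Measurable w)
    {c : ℝ} (hc : 0 ≤ c) (hb : ∀ᵐ t ∂Pv, |w t| ≤ c) (n : ℕ) (hn : 0 < s n) :
    ∫⁻ v, ENNReal.ofReal |avg s w n v - ∫ t, w t ∂Pv|
      ∂(Measure.infinitePi fun _ : Vtx s => Pv) ≤ ENNReal.ofReal (c / √(s n : ℝ)) := by
  set P := Measure.infinitePi fun _ : Vtx s => Pv with hP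
  have hs : (0 : ℝ) < s n := by exact_mod_cast hn
  set X : Fin (s n) → (Vtx s → ℝ) → ℝ := fun i v => w (v ⟨n, i⟩) with hX
  have hXm : ∀ i, Measurable (X i) := fun i => hw.comp (measurable_pi_apply _)
  have hae : ∀ i, ∀ᵐ v ∂P, |X i v| ≤ c := by
    intro i
    exact (measurePreserving_eval_infinitePi (fun _ : Vtx s => Pv)
        (⟨n, i⟩ : Vtx s)).quasiMeasurePreserving.ae hb
  have hL : ∀ i, MemLp (X i) 2 P := fun i =>
    MemLp.of_bound (hXm i).aestronglyMeasurable c (hae i)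
  have hvar : ∀ i, variance (X i) P ≤ c ^ 2 := by
    intro i
    have h1 := variance_le_sq_of_bounded (μ := P) (a := -c) (b := c) (X := X i)
      (by filter_upwards [hae i] with v hv; exact abs_le.1 hv) (hXm i).aemeasurable
    refine h1.trans (le_of_eq ?_)
    ring
  have hind : Set.Pairwise (↑(Finset.univ : Finset (Fin (s n))))
      fun i j => IndepFun (X i) (X j) P := by
    intro i _ j _ hij
    have h1 := iIndepFun_infinitePi (P := fun _ : Vtx s => Pv)
      (X := fun (_ : Vtx s) (t : ℝ) => w t) (fun _ => hw)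
    exact h1.indepFun (i := (⟨n, i⟩ : Vtx s)) (j := ⟨n, j⟩) (by
      intro h2
      apply hij
      simpa using h2)
  have hsumvar : variance (∑ i, X i) P ≤ s n * c ^ 2 := by
    rw [IndepFun.variance_sum (fun i _ => hL i) hind]
    calc ∑ i, variance (X i) P ≤ ∑ i : Fin (s n), c ^ 2 :=
          Finset.sum_le_sum fun i _ => hvar i
      _ = _ := by rw [Finset.sum_const, Finset.card_univ, Fintype.card_fin, nsmul_eq_mul]
  set Y : (Vtx s → ℝ) → ℝ := fun v => (1 / s n : ℝ) * (∑ i, X i) v with hY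
  have hYG : ∀ v, avg s w n v = Y v := by
    intro v
    simp only [avg, hY, Finset.sum_apply, hX]
  have hYL : MemLp Y 2 P := (memLp_finsetSum' _ fun i _ => hL i).const_mul _
  have hYv : variance Y P ≤ c ^ 2 * (1 / s n) := by
    rw [hY, variance_const_mul]
    calc (1 / s n : ℝ) ^ 2 * variance (∑ i, X i) P ≤ (1 / s n : ℝ) ^ 2 * (s n * c ^ 2) :=
          mul_le_mul_of_nonneg_left hsumvar (by positivity)
      _ = _ := by field_simp
  have hYE : P[Y] = ∫ t, w t ∂Pv := by
    have h1 : ∀ i, ∫ v, X i v ∂P = ∫ t, w t ∂Pv := by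
      intro i
      have h2 := (measurePreserving_eval_infinitePi (fun _ : Vtx s => Pv) (⟨n, i⟩ : Vtx s))
      rw [← h2.map_eq, integral_map h2.measurable.aemeasurable
        (by rw [h2.map_eq]; exact hw.aestronglyMeasurable)]
    rw [hY, integral_const_mul]
    have h3 : ∫ v, (∑ i, X i) v ∂P = ∑ i, ∫ v, X i v ∂P := by
      simp only [Finset.sum_apply]
      exact integral_finsetSum _ fun i _ => (hL i).integrable (by norm_num)
    rw [h3]
    simp only [h1]
    rw [Finset.sum_const, Finset.card_univ, Fintype.card_fin, nsmul_eq_mul]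
    field_simp
  set m : ℝ := ∫ t, w t ∂Pv with hm
  set Z : (Vtx s → ℝ) → ℝ := fun v => |Y v - m| with hZ
  have hZL : MemLp Z 2 P := (hYL.sub (memLp_const m)).abs
  have hZi : Integrable Z P := hZL.integrable (by norm_num)
  have h1 : (∫ v, Z v ∂P) ^ 2 ≤ ∫ v, (Y v - m) ^ 2 ∂P := by
    have h2 := variance_nonneg Z P
    rw [variance_eq_sub hZL] at h2
    have h3 : P[Z ^ 2] = ∫ v, (Y v - m) ^ 2 ∂P := by
      refine integral_congr_ae (Eventually.of_forall fun v => ?_)
      simp only [Pi.pow_apply, hZ, sq_abs]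
    rw [h3] at h2
    linarith
  have h2 : ∫ v, (Y v - m) ^ 2 ∂P ≤ c ^ 2 * (1 / s n) := by
    rw [← hYE, ← variance_eq_integral hYL.aemeasurable]
    exact hYv
  have h3 : ∫ v, Z v ∂P ≤ c / √(s n : ℝ) := by
    have h4 : (∫ v, Z v ∂P) ^ 2 ≤ (c / √(s n : ℝ)) ^ 2 := by
      rw [div_pow, Real.sq_sqrt hs.le]
      refine (h1.trans h2).trans (le_of_eq (by ring))
    exact le_of_sq_le_sq h4 (by positivity)
  calc ∫⁻ v, ENNReal.ofReal |avg s w n v - m| ∂P = ∫⁻ v, ENNReal.ofReal (Z v) ∂P := by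
        refine lintegral_congr fun v => ?_
        simp only [hZ, hYG]
    _ = ENNReal.ofReal (∫ v, Z v ∂P) :=
        (ofReal_integral_eq_lintegral_ofReal hZi (Eventually.of_forall fun v => abs_nonneg _)).symm
    _ ≤ _ := ENNReal.ofReal_le_ofReal h3

/-- the coefficients of the expansion of the resolvent around `E₀` -/
noncomputable def wk (lam E₀ δ : ℝ) (k : ℕ) (t : ℝ) : ℝ := δ ^ k / (lam * t - E₀) ^ (k + 1)

lemma wk_meas (lam E₀ δ : ℝ) (k : ℕ) : Measurable (wk lam E₀ δ k) := by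
  unfold wk
  fun_prop

lemma wk_bound {lam E₀ δ t : ℝ} (hδ : 0 < δ) (h : δ ≤ |lam * t - E₀|) (k : ℕ) :
    |wk lam E₀ δ k t| ≤ 1 / δ := by
  unfold wk
  rw [abs_div, abs_pow, abs_pow, abs_of_pos hδ, div_le_div_iff₀ (by
    have : 0 < |lam * t - E₀| := hδ.trans_le h
    positivity) hδ, one_mul, ← pow_succ]
  exact pow_le_pow_left₀ hδ.le h _

lemma wk_hasSum {lam E₀ δ t E : ℝ} (hδ : 0 < δ) (h : δ ≤ |lam * t - E₀|)
    (hE : |E - E₀| ≤ δ / 2) :
    HasSum (fun k => ((E - E₀) / δ) ^ k * wk lam E₀ δ k t) (fE lam E t) := by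
  have h0 : lam * t - E₀ ≠ 0 := abs_pos.1 (hδ.trans_le h)
  set x := (E - E₀) / (lam * t - E₀) with hx
  have hx1 : |x| < 1 := by
    rw [hx, abs_div, div_lt_one (abs_pos.2 h0)]
    linarith
  have h1 := (hasSum_geometric_of_abs_lt_one hx1).mul_left (1 / (lam * t - E₀))
  have h2 : 1 / (lam * t - E₀) * (1 - x)⁻¹ = fE lam E t := by
    have h3 : lam * t - E ≠ 0 := by
      intro hc
      have : lam * t - E₀ = E - E₀ := by linarith
      rw [this] at h
      linarith
    have h4 : 1 - x = (lam * t - E) / (lam * t - E₀) := by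
      rw [hx]
      field_simp
      ring
    unfold fE
    rw [h4, inv_div]
    field_simp
  rw [h2] at h1
  refine h1.congr_fun fun k => ?_
  unfold wk
  rw [hx, div_pow, div_pow, pow_succ]
  field_simp

end Pool.Agent.Y509.AT
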