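import Mathlib
import Pool.Agent.Y509.AT.Conv

set_option autoImplicit false

open MeasureTheory ProbabilityTheory Filter Topology ENNReal

namespace Pool.Agent.Y509.AT

open Pool.Agent.H695R3.AT

variable {s : ℕ → ℕ}

/-- the deviation of the shell `n` -/
noncomputable def dev (s : ℕ → ℕ) (Pv : Measure ℝ) (lam E₀ δ : ℝ) (n : ℕ) (v : Vtx s → ℝ) :
    ℝ≥0∞ :=
  ∑' k : ℕ, ENNReal.ofReal ((1 / 2) ^ k *
    |avg s (wk lam E₀ δ k) n v - ∫ t, wk lam E₀ δ k t ∂Pv|)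

lemma term_meas (Pv : Measure ℝ) (lam E₀ δ : ℝ) (n k : ℕ) :
    Measurable fun v : Vtx s → ℝ => ENNReal.ofReal ((1 / 2) ^ k *
      |avg s (wk lam E₀ δ k) n v - ∫ t, wk lam E₀ δ k t ∂Pv|) := by
  have h1 : Measurable fun v : Vtx s → ℝ =>
      avg s (wk lam E₀ δ k) n v - ∫ t, wk lam E₀ δ k t ∂Pv :=
    (avg_meas (wk_meas lam E₀ δ k) n).sub_const _
  exact ((h1.abs).const_mul _).ennreal_ofReal

lemma dev_meas (Pv : Measure ℝ) (lam E₀ δ : ℝ) (n : ℕ) : Measurable (dev s Pv lam E₀ δ n) :=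
  Measurable.ennreal_tsum fun k => term_meas Pv lam E₀ δ n k

lemma lintegral_dev {Pv : Measure ℝ} [IsProbabilityMeasure Pv] {lam E₀ δ : ℝ} (hδ : 0 < δ)
    (h : ∀ᵐ t ∂Pv, δ ≤ |lam * t - E₀|) (n : ℕ) (hn : 0 < s n) :
    ∫⁻ v, dev s Pv lam E₀ δ n v ∂(Measure.infinitePi fun _ : Vtx s => Pv) ≤
      ENNReal.ofReal (2 / δ * (1 / √(s n : ℝ))) := by
  unfold dev
  rw [lintegral_tsum fun k => (term_meas Pv lam E₀ δ n k).aemeasurable]
  have h1 : ∀ k : ℕ, ∫⁻ v, ENNReal.ofReal ((1 / 2) ^ k *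
      |avg s (wk lam E₀ δ k) n v - ∫ t, wk lam E₀ δ k t ∂Pv|)
        ∂(Measure.infinitePi fun _ : Vtx s => Pv) ≤
      ENNReal.ofReal ((1 / 2) ^ k * (1 / δ / √(s n : ℝ))) := by
    intro k
    have h2 := l1_bound (s := s) (wk_meas lam E₀ δ k) (by positivity : (0 : ℝ) ≤ 1 / δ)
      (h.mono fun t ht => wk_bound hδ ht k) n hn
    have h3 : ∀ v : Vtx s → ℝ, ENNReal.ofReal ((1 / 2) ^ k *
        |avg s (wk lam E₀ δ k) n v - ∫ t, wk lam E₀ δ k t ∂Pv|) =
        ENNReal.ofReal ((1 / 2) ^ k) *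
          ENNReal.ofReal |avg s (wk lam E₀ δ k) n v - ∫ t, wk lam E₀ δ k t ∂Pv| :=
      fun v => ENNReal.ofReal_mul (by positivity)
    simp only [h3]
    rw [lintegral_const_mul _ (by
      have h4 : Measurable fun v : Vtx s → ℝ =>
          avg s (wk lam E₀ δ k) n v - ∫ t, wk lam E₀ δ k t ∂Pv :=
        (avg_meas (wk_meas lam E₀ δ k) n).sub_const _
      exact h4.abs.ennreal_ofReal), ENNReal.ofReal_mul (by positivity)]
    exact mul_le_mul_right h2 _
  refine (ENNReal.tsum_le_tsum h1).trans (le_of_eq ?_)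
  have hg : Summable fun k : ℕ => ((1 : ℝ) / 2) ^ k * (1 / δ / √(s n : ℝ)) :=
    (summable_geometric_of_lt_one (by norm_num) (by norm_num)).mul_right _
  rw [← ENNReal.ofReal_tsum_of_nonneg (fun k => by positivity) hg, tsum_mul_right,
    tsum_geometric_of_lt_one (by norm_num) (by norm_num)]
  congr 1
  ring

/-- The shell averages converge, with summable errors, uniformly on short energy intervals. -/
theorem ae_conv {Pv : Measure ℝ} [IsProbabilityMeasure Pv] {lam E₀ δ : ℝ} (hδ : 0 < δ)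
    (h : ∀ᵐ t ∂Pv, δ ≤ |lam * t - E₀|) (hpos : ∀ n, 0 < s n)
    (hs : Summable fun n => 1 / √(s n : ℝ)) :
    ∀ᵐ v ∂(Measure.infinitePi fun _ : Vtx s => Pv), ∃ η : ℕ → ℝ, Summable η ∧
      (∀ n, 0 ≤ η n) ∧ ∀ n, ∀ E : ℝ, |E - E₀| ≤ δ / 2 →
        |Gn s lam v n E - Gmean Pv lam E| ≤ η n := by
  set P := Measure.infinitePi fun _ : Vtx s => Pv with hP
  have hae : ∀ᵐ v ∂P, ∀ x : Vtx s, δ ≤ |lam * v x - E₀| := by
    rw [ae_all_iff]
    intro x
    exact (measurePreserving_eval_infinitePi (fun _ : Vtx s => Pv)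
      x).quasiMeasurePreserving.ae h
  have hfin : ∫⁻ v, ∑' n, dev s Pv lam E₀ δ n v ∂P ≠ ∞ := by
    rw [lintegral_tsum fun n => (dev_meas Pv lam E₀ δ n).aemeasurable]
    apply ne_top_of_le_ne_top _ (ENNReal.tsum_le_tsum fun n => lintegral_dev hδ h n (hpos n))
    apply Summable.tsum_ofReal_ne_top
    exact hs.mul_left _
  have hlt := ae_lt_top (Measurable.ennreal_tsum fun n => dev_meas (s := s) Pv lam E₀ δ n) hfin
  filter_upwards [hae, hlt] with v hv hv2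
  refine ⟨fun n => (dev s Pv lam E₀ δ n v).toReal, ENNReal.summable_toReal hv2.ne,
    fun n => ENNReal.toReal_nonneg, fun n E hE => ?_⟩
  have hdn : dev s Pv lam E₀ δ n v ≠ ∞ := ENNReal.ne_top_of_tsum_ne_top hv2.ne n
  -- the real series
  set r : ℝ := (E - E₀) / δ with hr
  have hr1 : |r| ≤ 1 / 2 := by
    rw [hr, abs_div, abs_of_pos hδ, div_le_iff₀ hδ]
    linarith
  have hG : HasSum (fun k => r ^ k * avg s (wk lam E₀ δ k) n v) (Gn s lam v n E) := by
    have h1 : HasSum (fun k => (1 / s n : ℝ) * ∑ i : Fin (s n), r ^ k *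
        wk lam E₀ δ k (v ⟨n, i⟩)) ((1 / s n : ℝ) * ∑ i : Fin (s n), fE lam E (v ⟨n, i⟩)) :=
      (hasSum_sum fun i _ => wk_hasSum hδ (hv ⟨n, i⟩) hE).mul_left _
    rw [Gn_eq]
    refine h1.congr_fun fun k => ?_
    unfold avg
    rw [← Finset.mul_sum]
    ring
  have hM : HasSum (fun k => r ^ k * ∫ t, wk lam E₀ δ k t ∂Pv) (Gmean Pv lam E) := by
    have hi : ∀ k, Integrable (fun t => r ^ k * wk lam E₀ δ k t) Pv := fun k =>
      (Integrable.of_bound (wk_meas lam E₀ δ k).aestronglyMeasurable (1 / δ)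
        (h.mono fun t ht => wk_bound hδ ht k)).const_mul _
    have hsum : Summable fun k => ∫ t, ‖r ^ k * wk lam E₀ δ k t‖ ∂Pv := by
      refine Summable.of_nonneg_of_le (fun k => integral_nonneg fun t => norm_nonneg _)
        (fun k => ?_) ((summable_geometric_of_lt_one (by norm_num : (0 : ℝ) ≤ 1 / 2)
          (by norm_num)).mul_right (1 / δ))
      have h2 : ∫ t, ‖r ^ k * wk lam E₀ δ k t‖ ∂Pv ≤ ∫ _, (1 / 2 : ℝ) ^ k * (1 / δ) ∂Pv := by
        refine integral_mono_ae (hi k).norm (integrable_const _) (h.mono fun t ht => ?_)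
        simp only [Real.norm_eq_abs]
        rw [abs_mul, abs_pow]
        exact mul_le_mul (pow_le_pow_left₀ (abs_nonneg _) hr1 k) (wk_bound hδ ht k)
          (abs_nonneg _) (by positivity)
      simpa using h2
    have h3 := hasSum_integral_of_summable_integral_norm hi hsum
    have h4 : ∫ t, ∑' k, r ^ k * wk lam E₀ δ k t ∂Pv = Gmean Pv lam E := by
      unfold Gmean
      refine integral_congr_ae (h.mono fun t ht => ?_)
      exact (wk_hasSum hδ ht hE).tsum_eq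
    rw [h4] at h3
    refine h3.congr_fun fun k => ?_
    rw [integral_const_mul]
  have hD := hG.sub hM
  have hDs : HasSum (fun k : ℕ => (1 / 2 : ℝ) ^ k *
      |avg s (wk lam E₀ δ k) n v - ∫ t, wk lam E₀ δ k t ∂Pv|)
      (dev s Pv lam E₀ δ n v).toReal := by
    have h5 : ∀ k : ℕ, (ENNReal.ofReal ((1 / 2) ^ k *
        |avg s (wk lam E₀ δ k) n v - ∫ t, wk lam E₀ δ k t ∂Pv|)).toReal = (1 / 2 : ℝ) ^ k *
        |avg s (wk lam E₀ δ k) n v - ∫ t, wk lam E₀ δ k t ∂Pv| := fun k =>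
      ENNReal.toReal_ofReal (by positivity)
    have h6 := (ENNReal.summable_toReal hdn).hasSum
    rw [← ENNReal.tsum_toReal_eq (fun k => ENNReal.ofReal_ne_top)] at h6
    exact h6.congr_fun fun k => (h5 k).symm
  have h7 := tsum_of_norm_bounded hDs (f := fun k => r ^ k * avg s (wk lam E₀ δ k) n v -
    r ^ k * ∫ t, wk lam E₀ δ k t ∂Pv) (fun k => by
      rw [← mul_sub, norm_mul, norm_pow, Real.norm_eq_abs, Real.norm_eq_abs]
      exact mul_le_mul_of_nonneg_right (pow_le_pow_left₀ (abs_nonneg _) hr1 k) (abs_nonneg _))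
  rw [hD.tsum_eq, Real.norm_eq_abs] at h7
  exact h7

/-- **Random criterion** on short intervals. -/
theorem rand2 {Pv : Measure ℝ} [IsProbabilityMeasure Pv]
    {lam a b δ γ : ℝ} (hab : a < b) (hδ : 0 < δ) (hlen : b - a ≤ δ)
    (h : ∀ᵐ t ∂Pv, ∀ E ∈ Set.Icc a b, δ ≤ |lam * t - E|) (hγ : 1 / 2 < γ)
    (hG : ∀ E ∈ Set.Icc a b, γ ≤ |Gmean Pv lam E|) (hpos : ∀ n, 0 < s n)
    (hs : Summable fun n => 1 / √(s n : ℝ)) :
    ∀ᵐ v ∂(Measure.infinitePi fun _ : Vtx s => Pv),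
      ∀ H : L2 s →L[ℂ] L2 s, IsAnderson s lam v H → ¬ IsPurePointIn H a b := by
  have hmid : (a + b) / 2 ∈ Set.Icc a b := ⟨by linarith, by linarith⟩
  have hae : ∀ᵐ v ∂(Measure.infinitePi fun _ : Vtx s => Pv), ∀ x : Vtx s,
      ∀ E ∈ Set.Icc a b, δ ≤ |lam * v x - E| := by
    rw [ae_all_iff]
    intro x
    exact (measurePreserving_eval_infinitePi (fun _ : Vtx s => Pv)
      x).quasiMeasurePreserving.ae h
  filter_upwards [hae, ae_conv hδ (h.mono fun t ht => ht _ hmid) hpos hs] with v hvδ hv H hH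
  obtain ⟨η, hη, hη0, hN⟩ := hv
  have hN' : ∀ n, ∀ E ∈ Set.Icc a b, |Gn s lam v n E - Gmean Pv lam E| ≤ η n := by
    intro n E hE
    refine hN n E (abs_le.2 ⟨?_, ?_⟩)
    · linarith [hE.1]
    · linarith [hE.2]
  have hγ0 : 0 < γ := by linarith
  obtain ⟨N₁, hN₁⟩ := eventually_atTop.1
    (hη.tendsto_atTop_zero.eventually_le_const (by positivity : 0 < γ / 2))
  have hlow : ∀ E ∈ Set.Icc a b, ∀ n, N₁ ≤ n → γ / 2 ≤ |Gn s lam v n E| := by
    intro E hE n hn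
    have h1 := hN' n E hE
    have h2 := hN₁ n hn
    have h3 := hG E hE
    have h4 : |Gmean Pv lam E| ≤ |Gn s lam v n E| + |Gn s lam v n E - Gmean Pv lam E| := by
      have : Gmean Pv lam E = Gn s lam v n E - (Gn s lam v n E - Gmean Pv lam E) := by ring
      calc |Gmean Pv lam E| = |Gn s lam v n E - (Gn s lam v n E - Gmean Pv lam E)| := by
            rw [← this]
        _ ≤ _ := abs_sub _ _
    linarith
  refine det (η := fun n => 1 / (γ * (γ / 2)) * η n) (g := fun E => 1 / Gmean Pv lam E)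
    (κ := 2 - 1 / γ) (N := N₁) hH hab ?_ ?_ ?_ ?_ ?_ ?_ ?_
  · intro E hE x
    exact abs_pos.1 (hδ.trans_le (hvδ x E hE))
  · have : 1 / γ < 2 := by rw [div_lt_iff₀ hγ0]; linarith
    linarith
  · intro E hE
    have e1 : 2 - (2 - 1 / γ) = 1 / γ := by ring
    rw [abs_div, abs_one, e1]
    exact one_div_le_one_div_of_le hγ0 (hG E hE)
  · intro n
    have := hη0 n
    positivity
  · exact hη.mul_left _
  · intro E hE n hn
    exact abs_pos.1 (lt_of_lt_of_le (by positivity) (hlow E hE n hn))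
  · intro E hE n hn
    have h1 := hN' n E hE
    have h2 := hlow E hE n hn
    have h3 := hG E hE
    have h4 : Gn s lam v n E ≠ 0 := abs_pos.1 (lt_of_lt_of_le (by positivity) h2)
    have h5 : Gmean Pv lam E ≠ 0 := abs_pos.1 (lt_of_lt_of_le (by positivity) h3)
    have h6 : 1 / Gn s lam v n E - 1 / Gmean Pv lam E =
        -(Gn s lam v n E - Gmean Pv lam E) / (Gmean Pv lam E * Gn s lam v n E) := by
      field_simp
      ring
    rw [h6, abs_div, abs_neg, abs_mul]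
    calc |Gn s lam v n E - Gmean Pv lam E| / (|Gmean Pv lam E| * |Gn s lam v n E|)
        ≤ η n / (γ * (γ / 2)) := by
          apply div_le_div₀ (hη0 n) h1 (by positivity)
          exact mul_le_mul h3 h2 (by positivity) (abs_nonneg _)
      _ = _ := by ring

/-- **Random criterion**, for all subintervals at once. -/
theorem rand3 {Pv : Measure ℝ} [IsProbabilityMeasure Pv]
    {lam a b δ γ : ℝ} (hδ : 0 < δ)
    (h : ∀ᵐ t ∂Pv, ∀ E ∈ Set.Icc a b, δ ≤ |lam * t - E|) (hγ : 1 / 2 < γ)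
    (hG : ∀ E ∈ Set.Icc a b, γ ≤ |Gmean Pv lam E|) (hpos : ∀ n, 0 < s n)
    (hs : Summable fun n => 1 / √(s n : ℝ)) :
    ∀ᵐ v ∂(Measure.infinitePi fun _ : Vtx s => Pv),
      ∀ H : L2 s →L[ℂ] L2 s, IsAnderson s lam v H →
        ∀ c d : ℝ, a ≤ c → c < d → d ≤ b → ¬ IsPurePointIn H c d := by
  have key : ∀ q : ℚ × ℚ, ∀ᵐ v ∂(Measure.infinitePi fun _ : Vtx s => Pv),
      a ≤ q.1 → (q.1 : ℝ) < q.2 → (q.2 : ℝ) ≤ b → (q.2 : ℝ) - q.1 ≤ δ →
      ∀ H : L2 s →L[ℂ] L2 s, IsAnderson s lam v H → ¬ IsPurePointIn H q.1 q.2 := by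
    intro q
    by_cases hq : a ≤ q.1 ∧ (q.1 : ℝ) < q.2 ∧ (q.2 : ℝ) ≤ b ∧ (q.2 : ℝ) - q.1 ≤ δ
    · obtain ⟨h1, h2, h3, h4⟩ := hq
      have hsub : ∀ E ∈ Set.Icc (q.1 : ℝ) q.2, E ∈ Set.Icc a b := fun E hE =>
        ⟨h1.trans hE.1, hE.2.trans h3⟩
      filter_upwards [rand2 (s := s) h2 hδ h4 (h.mono fun t ht E hE => ht E (hsub E hE)) hγ
        (fun E hE => hG E (hsub E hE)) hpos hs] with v hv _ _ _ _
      exact hv
    · exact Eventually.of_forall fun v h1 h2 h3 h4 => absurd ⟨h1, h2, h3, h4⟩ hq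
  filter_upwards [ae_all_iff.2 key] with v hv H hH c d hac hcd hdb
  obtain ⟨p, hp1, hp2⟩ := exists_rat_btwn hcd
  obtain ⟨q, hq1, hq2⟩ := exists_rat_btwn (lt_min hp2 (by linarith : (p : ℝ) < p + δ))
  have h1 := hv (p, q) (by simp only; linarith) hq1
    (by have := hq2.trans_le (min_le_left _ _); simp only; linarith)
    (by have := hq2.trans_le (min_le_right _ _); simp only; linarith) H hH
  exact not_pp_mono hp1.le (by have := hq2.trans_le (min_le_left _ _); simp only; linarith) h1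

end Pool.Agent.Y509.AT
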