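import Mathlib
import Pool.Agent.H695R3.AT.AC
import Pool.Agent.Y509.AT.Rand

set_option autoImplicit false

open MeasureTheory ProbabilityTheory Filter Topology ENNReal

namespace Pool.Agent.Y509.AT

open Pool.Agent.H695R3.AT

variable {s : ℕ → ℕ}

/-- Almost surely, no spectral subspace of the Anderson operator for an interval `[c, d]`, `c < d`,
inside `[a, b]` is spanned by eigenvectors. -/
def NowhereAE (s : ℕ → ℕ) (Pv : Measure ℝ) (lam a b : ℝ) : Prop :=
  ∀ᵐ v ∂(Measure.infinitePi fun _ : Vtx s => Pv), ∃ H : L2 s →L[ℂ] L2 s,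
    IsAnderson s lam v H ∧ IsSelfAdjoint H ∧
      ∀ c d : ℝ, a ≤ c → c < d → d ≤ b → ¬ IsPurePointIn H c d

theorem nowhere {Pv : Measure ℝ} [IsProbabilityMeasure Pv] (hv1 : ∀ᵐ t ∂Pv, |t| ≤ 1)
    {lam a b δ γ : ℝ} (hδ : 0 < δ)
    (h : ∀ᵐ t ∂Pv, ∀ E ∈ Set.Icc a b, δ ≤ |lam * t - E|) (hγ : 1 / 2 < γ)
    (hG : ∀ E ∈ Set.Icc a b, γ ≤ |Gmean Pv lam E|) (hpos : ∀ n, 0 < s n)
    (hs : Summable fun n => 1 / √(s n : ℝ)) : NowhereAE s Pv lam a b := by
  have hae : ∀ᵐ v ∂(Measure.infinitePi fun _ : Vtx s => Pv), ∀ x : Vtx s, |v x| ≤ 1 := by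
    rw [ae_all_iff]
    intro x
    exact (measurePreserving_eval_infinitePi (fun _ : Vtx s => Pv)
      x).quasiMeasurePreserving.ae hv1
  filter_upwards [hae, rand3 hδ h hγ hG hpos hs] with v h1 h2
  obtain ⟨H, hH⟩ := exists_anderson lam zero_le_one h1
  exact ⟨H, hH, isSelfAdjoint_anderson hH, h2 H hH⟩

/-- Laws with a small cluster near `0`, far from the rest of the support, at the scale of `λ`. -/
theorem cluster2 {Pv : Measure ℝ} [IsProbabilityMeasure Pv] (hv1 : ∀ᵐ t ∂Pv, |t| ≤ 1)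
    {lam p : ℝ} (hlam : 0 < lam)
    (hp0 : 0 < p) (hp1 : p ≤ 1) (hnear : Pv.real {t | |t| ≤ p / (16 * lam)} = p)
    (hmid : Pv {t | p / (16 * lam) < |t| ∧ |t| < 16 / lam} = 0) (hpos : ∀ n, 0 < s n)
    (hs : Summable fun n => 1 / √(s n : ℝ)) : NowhereAE s Pv lam (p / 2) p := by
  have hae := near_far_dist hlam hp0 hp1 hmid
  have hδ : ∀ᵐ t ∂Pv, ∀ E ∈ Set.Icc (p / 2) p, p / 4 ≤ |lam * t - E| :=
    hae.mono fun t ht E hE => (ht E hE).1
  refine nowhere (γ := 2 / 3) hv1 (by positivity : 0 < p / 4) hδ (by norm_num)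
    (fun E hE => ?_) hpos hs
  have hms : MeasurableSet {t : ℝ | |t| ≤ p / (16 * lam)} :=
    measurableSet_le (by fun_prop) (by fun_prop)
  have hi : Integrable (fE lam E) Pv :=
    Integrable.of_bound (fE_meas lam E).aestronglyMeasurable (1 / (p / 4))
      (hδ.mono fun t ht => fE_bound (by positivity) (ht E hE))
  have h1 : Gmean Pv lam E ≤ ∫ t, (Set.indicator {t | |t| ≤ p / (16 * lam)}
      (fun _ => -(16 / (17 * p))) t + 1 / 15) ∂Pv := by
    unfold Gmean
    refine integral_mono_ae hi ?_ (hae.mono fun t ht => (ht E hE).2)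
    exact ((integrable_const _).indicator hms).add (integrable_const _)
  rw [integral_add ((integrable_const _).indicator hms) (integrable_const _),
    integral_indicator_const _ hms, integral_const, hnear] at h1
  have h2 : p • -(16 / (17 * p)) = -(16 / 17) := by
    rw [smul_eq_mul]
    field_simp
  rw [h2] at h1
  simp only [probReal_univ, one_smul] at h1
  have h3 : Gmean Pv lam E ≤ -(2 / 3) := h1.trans (by norm_num)
  rw [abs_of_neg (by linarith)]
  linarith

/-- Laws with an isolated atom at `0`. -/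
theorem atom2 {Pv : Measure ℝ} [IsProbabilityMeasure Pv] (hv1 : ∀ᵐ t ∂Pv, |t| ≤ 1)
    (h0 : 0 < Pv.real {0}) {r : ℝ} (hr : 0 < r) (hgap : Pv {t | 0 < |t| ∧ |t| < r} = 0)
    {lam : ℝ} (hlam : 16 / r ≤ lam) (hpos : ∀ n, 0 < s n)
    (hs : Summable fun n => 1 / √(s n : ℝ)) :
    NowhereAE s Pv lam (Pv.real {0} / 2) (Pv.real {0}) := by
  have hlam0 : 0 < lam := lt_of_lt_of_le (by positivity) hlam
  have hp1 : Pv.real {(0 : ℝ)} ≤ 1 := measureReal_le_one
  have hlr : 16 / lam ≤ r := by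
    rw [div_le_iff₀ hr] at hlam
    rw [div_le_iff₀ hlam0]
    linarith
  have hpr : Pv.real {(0 : ℝ)} / (16 * lam) < r := by
    refine lt_of_lt_of_le ?_ hlr
    rw [div_lt_div_iff₀ (by positivity) (by positivity)]
    nlinarith
  refine cluster2 hv1 hlam0 h0 hp1 ?_ ?_ hpos hs
  · apply le_antisymm
    · calc Pv.real {t : ℝ | |t| ≤ Pv.real {(0 : ℝ)} / (16 * lam)}
          ≤ Pv.real ({0} ∪ {t | 0 < |t| ∧ |t| < r}) := by
            refine measureReal_mono (fun t ht => ?_) (measure_ne_top _ _)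
            by_cases h : t = 0
            · left; exact h
            · right
              exact ⟨abs_pos.2 h, lt_of_le_of_lt ht hpr⟩
        _ ≤ Pv.real {0} + Pv.real {t | 0 < |t| ∧ |t| < r} := measureReal_union_le _ _
        _ = _ := by
            have : Pv.real {t | 0 < |t| ∧ |t| < r} = 0 := by
              rw [Measure.real, hgap, ENNReal.toReal_zero]
            rw [this, add_zero]
    · refine measureReal_mono (fun t ht => ?_) (measure_ne_top _ _)
      have : t = 0 := ht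
      subst this
      show |(0 : ℝ)| ≤ _
      rw [abs_zero]
      positivity
  · refine measure_mono_null (fun t ht => ?_) hgap
    refine ⟨lt_of_le_of_lt ?_ ht.1, ht.2.trans_le hlr⟩
    positivity

/-- The law `Pv` has, at arbitrarily small energies outside its support, a Stieltjes transform of
the order of an atom at `0` of mass `κ`. -/
def HasResonances (Pv : Measure ℝ) (κ : ℝ) : Prop :=
  ∀ ρ : ℝ, 0 < ρ → ∃ e : ℝ, e ≠ 0 ∧ |e| < ρ ∧ (∃ δ : ℝ, 0 < δ ∧ Pv {t | |t - e| < δ} = 0) ∧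
    κ ≤ |e| * |∫ t, 1 / (t - e) ∂Pv|

/-- The general criterion. -/
theorem resonances {Pv : Measure ℝ} [IsProbabilityMeasure Pv] (hv1 : ∀ᵐ t ∂Pv, |t| ≤ 1)
    {κ : ℝ} (hκ : 0 < κ) (hr : HasResonances Pv κ) (hpos : ∀ n, 0 < s n)
    (hs : Summable fun n => 1 / √(s n : ℝ)) (L : ℝ) :
    ∃ lam a b : ℝ, L < lam ∧ -(2 * κ) ≤ a ∧ a < b ∧ b ≤ 2 * κ ∧ NowhereAE s Pv lam a b := by
  obtain ⟨e, he0, heρ, ⟨δ₀, hδ₀, hgap⟩, hκe⟩ := hr (κ / (|L| + 1)) (by positivity)
  have he : 0 < |e| := abs_pos.2 he0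
  set lam : ℝ := κ / |e| with hlam
  have hlam0 : 0 < lam := by positivity
  have hL : L < lam := by
    rw [lt_div_iff₀ (by positivity)] at heρ
    have h1 : |L| + 1 < lam := by
      rw [hlam, lt_div_iff₀ he]
      linarith
    have h2 := le_abs_self L
    linarith
  have hE0 : |lam * e| = κ := by
    rw [abs_mul, abs_of_pos hlam0, hlam]
    field_simp
  have hae : ∀ᵐ t ∂Pv, δ₀ ≤ |t - e| := by
    rw [ae_iff]
    simpa only [not_le] using hgap
  set δ : ℝ := lam * δ₀ / 2 with hδ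
  have hδ0 : 0 < δ := by positivity
  set η : ℝ := min (min δ (δ ^ 2 / 4)) κ with hη
  have hη0 : 0 < η := lt_min (lt_min hδ0 (by positivity)) hκ
  have hη1 : η ≤ δ := (min_le_left _ _).trans (min_le_left _ _)
  have hη2 : η ≤ δ ^ 2 / 4 := (min_le_left _ _).trans (min_le_right _ _)
  have hη3 : η ≤ κ := min_le_right _ _
  have hfar : ∀ᵐ t ∂Pv, ∀ E ∈ Set.Icc (lam * e - η) (lam * e + η), δ ≤ |lam * t - E| := by
    filter_upwards [hae] with t ht E hE
    have h1 : 2 * δ ≤ |lam * t - lam * e| := by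
      rw [← mul_sub, abs_mul, abs_of_pos hlam0, hδ]
      calc 2 * (lam * δ₀ / 2) = lam * δ₀ := by ring
        _ ≤ _ := mul_le_mul_of_nonneg_left ht hlam0.le
    have h2 : |E - lam * e| ≤ η := abs_le.2 ⟨by linarith [hE.1], by linarith [hE.2]⟩
    have h3 : |lam * t - lam * e| ≤ |lam * t - E| + |E - lam * e| := by
      calc |lam * t - lam * e| = |(lam * t - E) + (E - lam * e)| := by ring_nf
        _ ≤ _ := abs_add_le _ _
    linarith
  have hmid : lam * e ∈ Set.Icc (lam * e - η) (lam * e + η) := ⟨by linarith, by linarith⟩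
  have hG0 : 1 ≤ |Gmean Pv lam (lam * e)| := by
    have h1 : Gmean Pv lam (lam * e) = (1 / lam) * ∫ t, 1 / (t - e) ∂Pv := by
      unfold Gmean fE
      rw [← integral_const_mul]
      refine integral_congr_ae (Eventually.of_forall fun t => ?_)
      show 1 / (lam * t - lam * e) = 1 / lam * (1 / (t - e))
      rw [← mul_sub, one_div_mul_one_div]
    rw [h1, abs_mul, abs_of_pos (by positivity : 0 < 1 / lam), hlam, one_div_div,
      div_mul_eq_mul_div, one_le_div hκ]
    exact hκe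
  have hlo := (abs_le.1 hE0.le).1
  have hhi := (abs_le.1 hE0.le).2
  refine ⟨lam, lam * e - η, lam * e + η, hL, by linarith, by linarith, by linarith,
    nowhere (γ := 3 / 4) hv1 hδ0 hfar (by norm_num) (fun E hE => ?_) hpos hs⟩
  have h1 := Gmean_lip hδ0 (hfar.mono fun t ht => ht _ hmid) (hfar.mono fun t ht => ht E hE)
  have h2 : |lam * e - E| ≤ η := abs_le.2 ⟨by linarith [hE.2], by linarith [hE.1]⟩
  have h3 : |lam * e - E| / δ ^ 2 ≤ 1 / 4 := by
    rw [div_le_iff₀ (by positivity)]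
    linarith
  have h4 : |Gmean Pv lam (lam * e)| ≤
      |Gmean Pv lam E| + |Gmean Pv lam (lam * e) - Gmean Pv lam E| := by
    have : Gmean Pv lam (lam * e) =
        Gmean Pv lam E + (Gmean Pv lam (lam * e) - Gmean Pv lam E) := by ring
    calc |Gmean Pv lam (lam * e)| =
          |Gmean Pv lam E + (Gmean Pv lam (lam * e) - Gmean Pv lam E)| := by rw [← this]
      _ ≤ _ := abs_add_le _ _
  linarith

lemma annulus_meas (r : ℝ) : MeasurableSet {t : ℝ | 0 < |t| ∧ |t| < r} := by
  have h1 : MeasurableSet {t : ℝ | 0 < |t|} := measurableSet_lt (by fun_prop) (by fun_prop)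
  have h2 : MeasurableSet {t : ℝ | |t| < r} := measurableSet_lt (by fun_prop) (by fun_prop)
  exact h1.inter h2

/-- The support of the law is porous at `0`: some `θ > 0` and arbitrarily small `e ≠ 0` such that
`Pv` gives no mass to the interval of radius `θ |e|` around `e`. -/
def PorousAtZero (Pv : Measure ℝ) : Prop :=
  ∃ θ : ℝ, 0 < θ ∧ ∀ ρ : ℝ, 0 < ρ → ∃ e : ℝ, e ≠ 0 ∧ |e| < ρ ∧ Pv {t | |t - e| < θ * |e|} = 0

/-- An atom at `0` and a support which is porous at `0`. -/
theorem porous_resonances {Pv : Measure ℝ} [IsProbabilityMeasure Pv] (h0 : 0 < Pv.real {0})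
    (hp : PorousAtZero Pv) : HasResonances Pv (Pv.real {0} / 2) := by
  obtain ⟨θ, hθ, hp⟩ := hp
  set p := Pv.real {(0 : ℝ)} with hpdef
  -- little mass near `0`
  have htend : Tendsto (fun k : ℕ => Pv {t : ℝ | 0 < |t| ∧ |t| < 1 / ((k : ℝ) + 1)}) atTop (𝓝 0) := by
    have hanti : Antitone fun k : ℕ => {t : ℝ | 0 < |t| ∧ |t| < 1 / ((k : ℝ) + 1)} := by
      intro k l hkl t ht
      refine ⟨ht.1, ht.2.trans_le ?_⟩
      apply one_div_le_one_div_of_le (by positivity)
      have : (k : ℝ) ≤ l := by exact_mod_cast hkl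
      linarith
    have hmeas : ∀ k : ℕ, NullMeasurableSet {t : ℝ | 0 < |t| ∧ |t| < 1 / ((k : ℝ) + 1)} Pv := by
      intro k
      exact (annulus_meas _).nullMeasurableSet
    have h1 := tendsto_measure_iInter_atTop hmeas hanti ⟨0, measure_ne_top _ _⟩
    have h2 : (⋂ k : ℕ, {t : ℝ | 0 < |t| ∧ |t| < 1 / ((k : ℝ) + 1)}) = ∅ := by
      ext t
      simp only [Set.mem_iInter, Set.mem_empty_iff_false, iff_false, not_forall]
      by_cases ht : 0 < |t|
      · obtain ⟨k, hk⟩ := exists_nat_one_div_lt ht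
        exact ⟨k, fun hc => absurd hc.2 (not_lt.2 hk.le)⟩
      · exact ⟨0, fun hc => ht hc.1⟩
    rw [h2, measure_empty] at h1
    exact h1
  have hε : (0 : ℝ≥0∞) < ENNReal.ofReal (θ * p / 4) := by
    rw [ENNReal.ofReal_pos]; positivity
  obtain ⟨k, hk⟩ := (htend.eventually_lt_const hε).exists
  set ρ' : ℝ := 1 / ((k : ℝ) + 1) with hρ'
  have hρ'0 : 0 < ρ' := by positivity
  have hsmall : Pv.real {t : ℝ | 0 < |t| ∧ |t| < ρ'} ≤ θ * p / 4 := by
    rw [Measure.real]
    exact ENNReal.toReal_le_of_le_ofReal (by positivity) hk.le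
  intro ρ hρ
  obtain ⟨e, he0, heρ, hgap⟩ := hp (min ρ (min (ρ' / 2) (ρ' * p / 8))) (by positivity)
  have he : 0 < |e| := abs_pos.2 he0
  have he1 : |e| < ρ := heρ.trans_le (min_le_left _ _)
  have he2 : |e| < ρ' / 2 := heρ.trans_le ((min_le_right _ _).trans (min_le_left _ _))
  have he3 : |e| < ρ' * p / 8 := heρ.trans_le ((min_le_right _ _).trans (min_le_right _ _))
  refine ⟨e, he0, he1, ⟨θ * |e|, by positivity, hgap⟩, ?_⟩
  have hae : ∀ᵐ t ∂Pv, θ * |e| ≤ |t - e| := by
    rw [ae_iff]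
    simpa only [not_le] using hgap
  have hm0 : MeasurableSet {(0 : ℝ)} := measurableSet_singleton 0
  have hmB : MeasurableSet {t : ℝ | 0 < |t| ∧ |t| < ρ'} := annulus_meas _
  have hfm : Measurable fun t : ℝ => 1 / (t - e) := by fun_prop
  have hfi : Integrable (fun t : ℝ => 1 / (t - e)) Pv := by
    refine Integrable.of_bound hfm.aestronglyMeasurable (1 / (θ * |e|)) (hae.mono fun t ht => ?_)
    rw [Real.norm_eq_abs, abs_div, abs_one]
    exact one_div_le_one_div_of_le (by positivity) ht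
  have hsplit : ∫ t, 1 / (t - e) ∂Pv = -(p / e) +
      ∫ t, (1 / (t - e) + Set.indicator {(0 : ℝ)} (fun _ => 1 / e) t) ∂Pv := by
    rw [integral_add hfi ((integrable_const _).indicator hm0), integral_indicator_const _ hm0,
      smul_eq_mul, ← hpdef]
    ring
  set R : ℝ := ∫ t, (1 / (t - e) + Set.indicator {(0 : ℝ)} (fun _ => 1 / e) t) ∂Pv with hR
  have hRb : |R| ≤ ∫ t, (Set.indicator {t : ℝ | 0 < |t| ∧ |t| < ρ'} (fun _ => 1 / (θ * |e|)) t +
      2 / ρ') ∂Pv := by
    have h1 := norm_integral_le_of_norm_le (μ := Pv)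
      (f := fun t => 1 / (t - e) + Set.indicator {(0 : ℝ)} (fun _ => 1 / e) t)
      (g := fun t => Set.indicator {t : ℝ | 0 < |t| ∧ |t| < ρ'} (fun _ => 1 / (θ * |e|)) t + 2 / ρ')
      (((integrable_const _).indicator hmB).add (integrable_const _)) (by
        filter_upwards [hae] with t ht
        rw [Real.norm_eq_abs]
        by_cases ht0 : t = 0
        · subst ht0
          rw [Set.indicator_of_mem (Set.mem_singleton _)]
          have e1 : (1 : ℝ) / (0 - e) + 1 / e = 0 := by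
            rw [zero_sub, div_neg]; ring
          rw [e1, abs_zero]
          have : 0 ≤ Set.indicator {t : ℝ | 0 < |t| ∧ |t| < ρ'} (fun _ => 1 / (θ * |e|)) 0 :=
            Set.indicator_nonneg (fun _ _ => by positivity) _
          positivity
        · rw [Set.indicator_of_notMem (by simpa using ht0), add_zero, abs_div, abs_one]
          have h5 : 0 < |t - e| := lt_of_lt_of_le (by positivity) ht
          by_cases hB : |t| < ρ'
          · rw [Set.indicator_of_mem (show t ∈ {t : ℝ | 0 < |t| ∧ |t| < ρ'} from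
              ⟨abs_pos.2 ht0, hB⟩)]
            have h6 : 1 / |t - e| ≤ 1 / (θ * |e|) := one_div_le_one_div_of_le (by positivity) ht
            have h7 : 0 ≤ 2 / ρ' := by positivity
            linarith
          · rw [Set.indicator_of_notMem (fun hc => hB hc.2), zero_add]
            have h6 : ρ' / 2 ≤ |t - e| := by
              have h7 : |t| ≤ |t - e| + |e| := by
                calc |t| = |(t - e) + e| := by ring_nf
                  _ ≤ _ := abs_add_le _ _
              rw [not_lt] at hB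
              linarith
            calc 1 / |t - e| ≤ 1 / (ρ' / 2) := one_div_le_one_div_of_le (by positivity) h6
              _ = 2 / ρ' := by rw [one_div_div])
    exact h1
  rw [integral_add ((integrable_const _).indicator hmB) (integrable_const _),
    integral_indicator_const _ hmB, integral_const, probReal_univ, one_smul, smul_eq_mul] at hRb
  have hR2 : |e| * |R| ≤ p / 2 := by
    have h1 : |e| * |R| ≤ |e| * (Pv.real {t : ℝ | 0 < |t| ∧ |t| < ρ'} * (1 / (θ * |e|)) + 2 / ρ') :=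
      mul_le_mul_of_nonneg_left hRb he.le
    have h2 : |e| * (Pv.real {t : ℝ | 0 < |t| ∧ |t| < ρ'} * (1 / (θ * |e|)) + 2 / ρ') =
        Pv.real {t : ℝ | 0 < |t| ∧ |t| < ρ'} / θ + 2 * |e| / ρ' := by
      field_simp
    have h3 : Pv.real {t : ℝ | 0 < |t| ∧ |t| < ρ'} / θ ≤ p / 4 := by
      rw [div_le_iff₀ hθ]
      linarith
    have h4 : 2 * |e| / ρ' ≤ p / 4 := by
      rw [div_le_iff₀ hρ'0]
      linarith
    linarith
  rw [hsplit]
  have h8 : |-(p / e)| ≤ |-(p / e) + R| + |R| := by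
    calc |-(p / e)| = |(-(p / e) + R) - R| := by ring_nf
      _ ≤ _ := abs_sub _ _
  have h9 : |e| * |-(p / e)| = p := by
    rw [abs_neg, abs_div, abs_of_pos h0]
    field_simp
  have h10 : |e| * |-(p / e)| ≤ |e| * (|-(p / e) + R| + |R|) := mul_le_mul_of_nonneg_left h8 he.le
  rw [h9, mul_add] at h10
  linarith

end Pool.Agent.Y509.AT
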